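import Pool.Agent.X317.Cone.Strand

/-!
# Field-dependence of the Betti numbers of the square of a cone edge ideal

* `edgeIdeal k G` is the edge ideal of the graph `G` on the vertices `Fin n`, the ideal of
  `k[x_0, …, x_(n-1)]` generated by the `x_u x_v`, `u`, `v` adjacent.
* `cone G` is the cone over `G`: the graph on `Fin (n + 1)` in which the last vertex is joined to all the
  others and the other vertices are adjacent as in `G`.
* `gbetti J i j` is the graded Betti number `β_{i,j}(J) = dim_k Tor_i(J, k)_j` of an ideal `J` of
  `k[x_0, …, x_(n-1)]`, the dimension of the part of internal degree `j` of the Koszul homology of degree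
  `i` of the variables with coefficients in `J`: cycles (`GZ J i j`) modulo boundaries (`GB J i j`), the
  chains (`GC J i j`) being the functions `f` from the subsets `T` of the set of the variables to
  `J`, standing for `∑ f(T) e_T`, with `f(T)` homogeneous of degree `j - |T|`, and `0` unless `|T| = i`.
* `DependsOnField I`: there are two fields `k`, `k'` and `i`, `j` with `β_{i,j}(I_k) ≠ β_{i,j}(I_{k'})`.

**Theorem.** For every graph `G` (connected or not): if the Betti numbers of the edge ideal of `G` depend on
the field then so do the Betti numbers of the square of the edge ideal of the cone over `G`.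

This is the positive answer to Q1.
-/

set_option autoImplicit false
set_option linter.all false

open Pool.Agent.X317.Cone

namespace Pool.Agent.Results.MP_01886a_al.ConeSquare

/-- The Betti numbers of the ideals `I k` depend on the field `k`. -/
def DependsOnField {n : ℕ} (I : ∀ (k : Type) [Field k], Ideal (MvPolynomial (Fin n) k)) : Prop :=
  ∃ (k k' : Type) (_ : Field k) (_ : Field k') (i j : ℕ), gbetti (I k) i j ≠ gbetti (I k') i j

theorem result (n : ℕ) (G : SimpleGraph (Fin n))
    (h : DependsOnField (fun k _ => edgeIdeal k G)) :
    DependsOnField (fun k _ => edgeIdeal k (cone G) ^ 2) := by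
  by_contra hcon
  unfold DependsOnField at h hcon
  push Not at hcon
  obtain ⟨k, k', _, _, i, j, hne⟩ := h
  apply hne
  have h1 := main k G (fun i j => hcon k ℚ _ _ i j) i j
  have h2 := main k' G (fun i j => hcon k' ℚ _ _ i j) i j
  rw [h1, h2]

end Pool.Agent.Results.MP_01886a_al.ConeSquare
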